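import Pool.Agent.N317.NG1

/-!
# Lipschitz homeomorphisms of nonseparable Hilbert spaces which are nowhere Gateaux differentiable
-/

set_option autoImplicit false

open Topology Filter
open scoped ENNReal

namespace Pool.Agent.Results.MP_714461_an.NowhereGateaux

/-- `f` is Gateaux differentiable at `x₀`: there is a bounded linear operator `T` with
`(f (x₀ + t h) - f x₀) / t → T h` in norm as `t → 0` (two-sided limit), for every `h`. -/
def GateauxDifferentiableAt {X Y : Type} [NormedAddCommGroup X] [NormedSpace ℝ X]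
    [NormedAddCommGroup Y] [NormedSpace ℝ Y] (f : X → Y) (x₀ : X) : Prop :=
  ∃ T : X →L[ℝ] Y, ∀ h : X,
    Tendsto (fun t : ℝ => t⁻¹ • (f (x₀ + t • h) - f x₀)) (𝓝[≠] 0) (𝓝 (T h))

/-- `X` is reflexive: the canonical embedding into the bidual is onto. -/
def IsReflexive (X : Type) [NormedAddCommGroup X] [NormedSpace ℝ X] : Prop :=
  Function.Surjective (NormedSpace.inclusionInDoubleDual ℝ X)

/-- `Z` is finitely representable in `X`. -/
def FinitelyRepresentable (Z X : Type) [NormedAddCommGroup Z] [NormedSpace ℝ Z]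
    [NormedAddCommGroup X] [NormedSpace ℝ X] : Prop :=
  ∀ E : Submodule ℝ Z, FiniteDimensional ℝ E → ∀ ε : ℝ, 0 < ε →
    ∃ T : E →L[ℝ] X, ∀ z : E, ‖z‖ ≤ ‖T z‖ ∧ ‖T z‖ ≤ (1 + ε) * ‖z‖

/-- `X` is superreflexive: every Banach space finitely representable in `X` is reflexive. -/
def IsSuperreflexive (X : Type) [NormedAddCommGroup X] [NormedSpace ℝ X] : Prop :=
  ∀ (Z : Type) [NormedAddCommGroup Z] [NormedSpace ℝ Z] [CompleteSpace Z],
    FinitelyRepresentable Z X → IsReflexive Z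

/-- For every `0 < ε < 1` there is a bijection `φ` of `X` onto itself with
`(1 - ε) ‖x - y‖ ≤ ‖φ x - φ y‖ ≤ (1 + ε) ‖x - y‖` for all `x, y`, which is Gateaux differentiable
at no point. -/
def HasNowhereGateauxMaps (X : Type) [NormedAddCommGroup X] [NormedSpace ℝ X] : Prop :=
  ∀ ε : ℝ, 0 < ε → ε < 1 → ∃ φ : X ≃ X,
    (∀ x y, (1 - ε) * ‖x - y‖ ≤ ‖φ x - φ y‖ ∧ ‖φ x - φ y‖ ≤ (1 + ε) * ‖x - y‖) ∧
    ∀ x, ¬ GateauxDifferentiableAt φ x

theorem reflexive_of_hilbert (X : Type) [NormedAddCommGroup X] [InnerProductSpace ℝ X]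
    [CompleteSpace X] : IsReflexive X := by
  intro Φ
  -- the functional `y ↦ Φ ⟨y, ·⟩` on `X` is represented by a vector `x`
  let J : X ≃ₗᵢ[ℝ] StrongDual ℝ X := InnerProductSpace.toDual ℝ X
  let Ψ : StrongDual ℝ X := Φ.comp (J.toContinuousLinearEquiv : X →L[ℝ] StrongDual ℝ X)
  refine ⟨J.symm Ψ, ?_⟩
  ext f
  obtain ⟨y, rfl⟩ := J.surjective f
  rw [NormedSpace.dual_def]
  have h1 : (J y) (J.symm Ψ) = inner ℝ y (J.symm Ψ) := rfl
  have h2 : (J (J.symm Ψ)) y = inner ℝ (J.symm Ψ) y := rfl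
  rw [h1, real_inner_comm, ← h2, LinearIsometryEquiv.apply_symm_apply]
  rfl

theorem superreflexive_of_hilbert (X : Type) [NormedAddCommGroup X] [InnerProductSpace ℝ X] :
    IsSuperreflexive X := by
  intro Z _ _ _ hZ
  have key : ∀ x y : Z,
      ‖x + y‖ * ‖x + y‖ + ‖x - y‖ * ‖x - y‖ = 2 * (‖x‖ * ‖x‖ + ‖y‖ * ‖y‖) := by
    intro x y
    set L := ‖x + y‖ * ‖x + y‖ + ‖x - y‖ * ‖x - y‖ with hL
    set R := 2 * (‖x‖ * ‖x‖ + ‖y‖ * ‖y‖) with hR
    have hL0 : 0 ≤ L := by positivity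
    have hR0 : 0 ≤ R := by positivity
    have hboth : ∀ ε : ℝ, 0 < ε → L ≤ (1 + ε) ^ 2 * R ∧ R ≤ (1 + ε) ^ 2 * L := by
      intro ε hε
      let E : Submodule ℝ Z := Submodule.span ℝ {x, y}
      have hE : FiniteDimensional ℝ E :=
        FiniteDimensional.span_of_finite ℝ (Set.toFinite {x, y})
      obtain ⟨T, hT⟩ := hZ E hE ε hε
      have hx : x ∈ E := Submodule.subset_span (by simp)
      have hy : y ∈ E := Submodule.subset_span (by simp)
      let x' : E := ⟨x, hx⟩
      let y' : E := ⟨y, hy⟩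
      have hp := parallelogram_law_with_norm_mul ℝ (T x') (T y')
      rw [← map_add, ← map_sub] at hp
      have n1 : ‖x' + y'‖ = ‖x + y‖ := rfl
      have n2 : ‖x' - y'‖ = ‖x - y‖ := rfl
      have n3 : ‖x'‖ = ‖x‖ := rfl
      have n4 : ‖y'‖ = ‖y‖ := rfl
      have a1 := hT (x' + y')
      have a2 := hT (x' - y')
      have a3 := hT x'
      have a4 := hT y'
      rw [n1] at a1
      rw [n2] at a2
      rw [n3] at a3
      rw [n4] at a4
      have low : ∀ {a b : ℝ}, 0 ≤ a → a ≤ b → a * a ≤ b * b := fun h0 h => mul_self_le_mul_self h0 h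
      have b1 := low (norm_nonneg _) a1.1
      have b2 := low (norm_nonneg _) a2.1
      have b3 := low (norm_nonneg _) a3.1
      have b4 := low (norm_nonneg _) a4.1
      have c1 := low (norm_nonneg _) a1.2
      have c2 := low (norm_nonneg _) a2.2
      have c3 := low (norm_nonneg _) a3.2
      have c4 := low (norm_nonneg _) a4.2
      constructor
      · calc L ≤ ‖T (x' + y')‖ * ‖T (x' + y')‖ + ‖T (x' - y')‖ * ‖T (x' - y')‖ := by
              rw [hL]; linarith
          _ = 2 * (‖T x'‖ * ‖T x'‖ + ‖T y'‖ * ‖T y'‖) := hp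
          _ ≤ (1 + ε) ^ 2 * R := by
              rw [hR]
              nlinarith [c3, c4]
      · calc R ≤ 2 * (‖T x'‖ * ‖T x'‖ + ‖T y'‖ * ‖T y'‖) := by
              rw [hR]; linarith
          _ = ‖T (x' + y')‖ * ‖T (x' + y')‖ + ‖T (x' - y')‖ * ‖T (x' - y')‖ := hp.symm
          _ ≤ (1 + ε) ^ 2 * L := by
              rw [hL]
              nlinarith [c1, c2]
    have hlim : ∀ a b : ℝ, 0 ≤ b → (∀ ε : ℝ, 0 < ε → a ≤ (1 + ε) ^ 2 * b) → a ≤ b := by
      intro a b _ h
      have h1 : Tendsto (fun ε : ℝ => (1 + ε) ^ 2 * b) (𝓝[>] 0) (𝓝 ((1 + 0) ^ 2 * b)) := by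
        have : Continuous fun ε : ℝ => (1 + ε) ^ 2 * b := by fun_prop
        exact (this.tendsto 0).mono_left nhdsWithin_le_nhds
      have h2 : a ≤ (1 + 0) ^ 2 * b := by
        refine ge_of_tendsto h1 ?_
        filter_upwards [self_mem_nhdsWithin] with ε hε using h ε hε
      simpa using h2
    exact le_antisymm (hlim L R hR0 fun ε hε => (hboth ε hε).1)
      (hlim R L hL0 fun ε hε => (hboth ε hε).2)
  let _ : InnerProductSpace ℝ Z := InnerProductSpace.ofNorm ℝ key
  exact reflexive_of_hilbert Z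

open Pool.Agent.N317.NG in
/-- On `ℓ^p(Γ)`, `Γ` uncountable, `1 ≤ p < ∞`. -/
theorem main_lp (Γ : Type) [Uncountable Γ] (p : ℝ≥0∞) [Fact (1 ≤ p)] (hp : p ≠ ∞) (ε : ℝ)
    (h0 : 0 < ε) (h1 : ε < 1) :
    ∃ φ : lp (fun _ : Γ => ℝ) p ≃ lp (fun _ : Γ => ℝ) p,
      (∀ x y, (1 - ε) * ‖x - y‖ ≤ ‖φ x - φ y‖ ∧ ‖φ x - φ y‖ ≤ (1 + ε) * ‖x - y‖) ∧
      ∀ x, ¬ GateauxDifferentiableAt φ x := by
  classical
  have hp1 : (1 : ℝ≥0∞) ≤ p := Fact.out
  have hp0 : p ≠ 0 := (lt_of_lt_of_le one_pos hp1).ne'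
  have hpr : 0 < p.toReal := ENNReal.toReal_pos hp0 hp
  refine ⟨phi p ε h0 h1, fun x y => ⟨phi_lower hp0 ε h0 h1 x y, phi_upper hp0 ε h0 h1 x y⟩, ?_⟩
  rintro x ⟨T, hT⟩
  obtain ⟨i, hi⟩ := exists_zero hpr x
  exact no_deriv hp0 ε h0 h1 x i hi (lp.single p i (1 : ℝ)) (by simp) _ (hT _)

/-- On every nonseparable Hilbert space. -/
theorem main_hilbert (H : Type) [NormedAddCommGroup H] [InnerProductSpace ℝ H] [CompleteSpace H]
    (hH : ¬ TopologicalSpace.SeparableSpace H) (ε : ℝ) (h0 : 0 < ε) (h1 : ε < 1) :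
    ∃ φ : H ≃ H,
      (∀ x y, (1 - ε) * ‖x - y‖ ≤ ‖φ x - φ y‖ ∧ ‖φ x - φ y‖ ≤ (1 + ε) * ‖x - y‖) ∧
      ∀ x, ¬ GateauxDifferentiableAt φ x := by
  obtain ⟨w, b, -⟩ := exists_hilbertBasis ℝ H
  have hw : Uncountable w := by
    rw [← not_countable_iff]
    intro hc
    apply hH
    have hd := b.dense_span
    have h2 : TopologicalSpace.IsSeparable (Set.range b) := (Set.countable_range b).isSeparable
    have h3 : TopologicalSpace.IsSeparable
        ((Submodule.span ℝ (Set.range b)).topologicalClosure : Set H) := by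
      rw [Submodule.topologicalClosure_coe]
      exact h2.span.closure
    rw [hd, Submodule.top_coe] at h3
    exact TopologicalSpace.isSeparable_univ_iff.1 h3
  obtain ⟨φ, hφ1, hφ2⟩ := main_lp w 2 (by norm_num) ε h0 h1
  let e : H ≃ₗᵢ[ℝ] lp (fun _ : w => ℝ) 2 := b.repr
  refine ⟨e.toEquiv.trans (φ.trans e.symm.toEquiv), fun x y => ?_, ?_⟩
  · have e1 : ‖(e.toEquiv.trans (φ.trans e.symm.toEquiv)) x -
        (e.toEquiv.trans (φ.trans e.symm.toEquiv)) y‖ = ‖φ (e x) - φ (e y)‖ := by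
      change ‖e.symm (φ (e x)) - e.symm (φ (e y))‖ = _
      rw [← map_sub, LinearIsometryEquiv.norm_map]
    have e2 : ‖x - y‖ = ‖e x - e y‖ := by rw [← map_sub, LinearIsometryEquiv.norm_map]
    rw [e1, e2]
    exact hφ1 _ _
  · rintro x ⟨T, hT⟩
    apply hφ2 (e x)
    refine ⟨(e.toContinuousLinearEquiv : H →L[ℝ] _).comp
      (T.comp (e.symm.toContinuousLinearEquiv : _ →L[ℝ] H)), fun h => ?_⟩
    have h2 := (e.continuous.tendsto _).comp (hT (e.symm h))
    refine h2.congr fun t => ?_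
    change e (t⁻¹ • (e.symm (φ (e (x + t • e.symm h))) - e.symm (φ (e x)))) = _
    rw [map_smul, map_sub, LinearIsometryEquiv.apply_symm_apply,
      LinearIsometryEquiv.apply_symm_apply, map_add, map_smul,
      LinearIsometryEquiv.apply_symm_apply]

/-- Negative answers to Q1 and Q2. (1) There are nonseparable superreflexive (hence reflexive)
Banach spaces `X`, `Y` and a Lipschitz homeomorphism of `X` onto `Y` which is Gateaux
differentiable at no point. (2) In fact every nonseparable Hilbert space has, for every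
`0 < ε < 1`, a bijective self-map with Lipschitz constants `1 - ε`, `1 + ε` which is Gateaux
differentiable at no point. (3) The same holds for `ℓ^p(Γ)`, `1 ≤ p < ∞`, `Γ` uncountable. -/
theorem result :
    (∃ (X Y : Type) (_ : NormedAddCommGroup X) (_ : NormedSpace ℝ X) (_ : CompleteSpace X)
      (_ : NormedAddCommGroup Y) (_ : NormedSpace ℝ Y) (_ : CompleteSpace Y),
      ¬ TopologicalSpace.SeparableSpace X ∧ ¬ TopologicalSpace.SeparableSpace Y ∧
      IsReflexive X ∧ IsReflexive Y ∧ IsSuperreflexive X ∧ IsSuperreflexive Y ∧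
      ∃ φ : X ≃ Y, (∃ K, LipschitzWith K φ) ∧ (∃ K, LipschitzWith K φ.symm) ∧
        ∀ x : X, ¬ GateauxDifferentiableAt φ x) ∧
    (∀ (H : Type) [NormedAddCommGroup H] [InnerProductSpace ℝ H] [CompleteSpace H],
      ¬ TopologicalSpace.SeparableSpace H → HasNowhereGateauxMaps H) ∧
    (∀ (Γ : Type) [Uncountable Γ] (p : ℝ≥0∞) [Fact (1 ≤ p)], p ≠ ∞ →
      HasNowhereGateauxMaps (lp (fun _ : Γ => ℝ) p)) := by
  refine ⟨?_, fun H _ _ _ hH ε h0 h1 => main_hilbert H hH ε h0 h1,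
    fun Γ _ p _ hp ε h0 h1 => main_lp Γ p hp ε h0 h1⟩
  have hsep : ¬ TopologicalSpace.SeparableSpace (lp (fun _ : ℝ => ℝ) 2) := by
    classical
    intro hs
    let v : ℝ → lp (fun _ : ℝ => ℝ) 2 := fun i => lp.single 2 i (1 : ℝ)
    have hv : ∀ i j : ℝ, i ≠ j → 1 ≤ dist (v i) (v j) := by
      intro i j hij
      rw [dist_eq_norm]
      have h1 := lp.norm_apply_le_norm (p := 2) (by norm_num) (v i - v j) i
      have h2 : (v i - v j) i = 1 := by
        change (v i) i - (v j) i = 1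
        have h3 : (v i) i = 1 := by simp [v]
        have h4 : (v j) i = 0 := by
          simp [v, hij]
        rw [h3, h4, sub_zero]
      rw [h2] at h1
      simpa using h1
    have hc : (Set.univ : Set ℝ).Countable := by
      have hpw : (Set.univ : Set ℝ).PairwiseDisjoint fun i => Metric.ball (v i) (1 / 2) := by
        intro i _ j _ hij
        refine Metric.ball_disjoint_ball ?_
        have := hv i j hij
        linarith
      exact hpw.countable_of_isOpen (fun i _ => Metric.isOpen_ball)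
        (fun i _ => ⟨v i, Metric.mem_ball_self (by norm_num)⟩)
    exact Set.not_countable_univ hc
  obtain ⟨φ, hφ1, hφ2⟩ := main_hilbert (lp (fun _ : ℝ => ℝ) 2) hsep (1 / 2) (by norm_num)
    (by norm_num)
  refine ⟨lp (fun _ : ℝ => ℝ) 2, lp (fun _ : ℝ => ℝ) 2, inferInstance, inferInstance,
    inferInstance, inferInstance, inferInstance, inferInstance, hsep, hsep,
    reflexive_of_hilbert _, reflexive_of_hilbert _, superreflexive_of_hilbert _,
    superreflexive_of_hilbert _, φ, ⟨2, ?_⟩, ⟨2, ?_⟩, hφ2⟩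
  · refine LipschitzWith.of_dist_le_mul fun x y => ?_
    rw [dist_eq_norm, dist_eq_norm]
    have := (hφ1 x y).2
    have h3 := norm_nonneg (x - y)
    push_cast
    linarith
  · refine LipschitzWith.of_dist_le_mul fun x y => ?_
    rw [dist_eq_norm, dist_eq_norm]
    have := (hφ1 (φ.symm x) (φ.symm y)).1
    rw [φ.apply_symm_apply, φ.apply_symm_apply] at this
    push_cast
    linarith

end Pool.Agent.Results.MP_714461_an.NowhereGateaux
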